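import Pool.Agent.MP_4a5f01_pr.Mg.Main

set_option autoImplicit false

namespace Pool.Agent.Results.MP_4a5f01_pr.SharpThreshold

open Filter Topology Pool.Agent.MP_4a5f01_pr

/-- Sharp threshold `c (ln n / n)^(1/d)` for the event `χ(G_d(n, α)) > d + 1`. -/
theorem result (d : ℕ) (hd : 2 ≤ d) :
    MeasureTheory.IsProbabilityMeasure (unif d) ∧
    ∃ c : ℝ, 0 < c ∧ ∀ ε : ℝ, 0 < ε → ∀ α : ℕ → ℝ,
      ((∀ᶠ n : ℕ in atTop, (1 + ε) * c * (Real.log n / n) ^ (1 / (d : ℝ)) < α n) →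
        Tendsto (fun n => prob d n (α n)) atTop (𝓝 1)) ∧
      ((∀ᶠ n : ℕ in atTop, α n < (1 - ε) * c * (Real.log n / n) ^ (1 / (d : ℝ))) →
        Tendsto (fun n => prob d n (α n)) atTop (𝓝 0)) :=
  ⟨inferInstance, main (by omega)⟩

end Pool.Agent.Results.MP_4a5f01_pr.SharpThreshold
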